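import Pool.Agent.H257R5.Five.Main

/-!
# Five points suffice for the (4,3)-property in the plane

Every finite family of nonempty convex sets in the plane among any four of which some three have a common point can be
pierced by at most five points.  So the Hadwiger-Debrunner number `c(4,3,2)` is at most `5`.

Outline of the proof.  (`Six.Walk`, `Six.Split`) An interval order whose comparable pairs are coloured with two colours
without alternating 4-cycle can be split into two parts, each of which has no pair of one of the colours.
(`Six.LemU`) A planar lemma on weighted unit vectors in three groups.  (`Six.VI`, `Six.Equi`, `Six.AT`) With Brouwer's
theorem: intervals on a line together with two planar convex sets for each interval are pierced by three points of the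
line and two points of the plane.  (`Five.ThmL`) So a pairwise intersecting family with the (4,3)-property, one member
of which lies on the left and one on the right of a line, is pierced by five points.  (`Five.Case1`, `Five.WeakSep`) If
all members meet pairwise, restrict them to the smallest disc around the origin that meets all pairwise intersections;
two members meet it in one common point only and are separated by a line through this point.  (`Five.Case2`) The case
of a disjoint pair.
-/

set_option autoImplicit false

namespace Pool.Agent.Results.MP_8fca14_co.FivePointsSuffice

/-- Every finite family of nonempty convex sets in the plane with the (4,3)-property is pierced by at most five points. -/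
theorem result {ι : Type*} [Fintype ι] (F : ι → Set (EuclideanSpace ℝ (Fin 2)))
    (hF : ∀ i, (F i).Nonempty ∧ Convex ℝ (F i))
    (h43 : ∀ s : Finset ι, s.card = 4 → ∃ t ⊆ s, t.card = 3 ∧ ∃ x, ∀ i ∈ t, x ∈ F i) :
    ∃ P : Finset (EuclideanSpace ℝ (Fin 2)), P.card ≤ 5 ∧ ∀ i, ∃ x ∈ P, x ∈ F i :=
  H257R5.M5.five_points F hF h43

end Pool.Agent.Results.MP_8fca14_co.FivePointsSuffice
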