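import Pool.Agent.H257R5.Eleven

/-!
# Three points do not suffice for the (4,3)-property in the plane

There is a finite family (11 convex polygons) of nonempty compact convex sets in the plane such that among any four
members some three have a common point, and no three points of the plane pierce all members.
So the Hadwiger-Debrunner number `c(4,3,2)` is at least `4`.

The polygons are the convex hulls of subsets of an explicit set of 22 integer points; each of these points is the
witness of one maximal intersecting subfamily. That no three points suffice is checked as follows: for 57 triples of
polygons three half planes, each containing one of them, have no common point, and every partition of the 11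
indices into three classes has one of these triples inside a class.
-/

set_option autoImplicit false

namespace Pool.Agent.Results.MP_8fca14_co.FourPointsNeeded

/-- A finite family of at least four nonempty compact convex sets in the plane in which every four members include
three with a common point, and such that no set of at most three points meets all members. -/
theorem result :
    ∃ F : Finset (Set (EuclideanSpace ℝ (Fin 2))), 4 ≤ F.card ∧
      (∀ A ∈ F, Convex ℝ A ∧ IsCompact A ∧ A.Nonempty) ∧
      (∀ G ⊆ F, G.card = 4 → ∃ H ⊆ G, H.card = 3 ∧ ∃ x : EuclideanSpace ℝ (Fin 2), ∀ A ∈ H, x ∈ A) ∧
      ∀ P : Finset (EuclideanSpace ℝ (Fin 2)), P.card ≤ 3 → ∃ A ∈ F, ∀ p ∈ P, p ∉ A :=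
  Pool.Agent.H257R5.Pierce.main Pool.Agent.H257R5.Eleven.chk le_rfl

end Pool.Agent.Results.MP_8fca14_co.FourPointsNeeded
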